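import Pool.Agent.H39.Newt3.Base

/-!
# KPA: a point `p`, two products turned into factors (MP_432c1b_ag, NEWTON3)
-/

set_option autoImplicit false

namespace Pool.Newt3

open MvPolynomial Pool.Agent.H39.MonoR Pool.Agent.H75.Mono Pool.Newt Pool.Newt2

section KPA

variable {σ I : Type}

open Classical in
/-- the factors of the `l ∈ S` are replaced by `δ_0` -/
noncomputable def kpaL (φ : Co σ I → ℤ → ℂ) (S : Finset σ) : Co σ I → ℤ → ℂ
  | none => φ none
  | some (Sum.inl l) => if l ∈ S then (fun v => if v = 0 then 1 else 0) else φ (some (Sum.inl l))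
  | some (Sum.inr i) => φ (some (Sum.inr i))

open Classical in
/-- the factors of the `i ∈ S` are replaced by `φ_i(v) - c_i φ_i(v-1)` -/
noncomputable def kpaI (φ : Co σ I → ℤ → ℂ) (c : I → ℂ) (S : Finset I) : Co σ I → ℤ → ℂ
  | none => φ none
  | some (Sum.inl l) => φ (some (Sum.inl l))
  | some (Sum.inr i) =>
      if i ∈ S then (fun v => φ (some (Sum.inr i)) v - c i * φ (some (Sum.inr i)) (v - 1))
      else φ (some (Sum.inr i))

theorem kpaL_empty (φ : Co σ I → ℤ → ℂ) : kpaL φ ∅ = φ := by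
  funext ξ
  rcases ξ with _ | l | i <;> simp [kpaL]

theorem kpaI_empty (φ : Co σ I → ℤ → ℂ) (c : I → ℂ) : kpaI φ c ∅ = φ := by
  funext ξ
  rcases ξ with _ | l | i <;> simp [kpaI]

open Classical in
theorem kpaL_insert (φ : Co σ I → ℤ → ℂ) (S : Finset σ) (l : σ) :
    Function.update (kpaL φ S) (some (Sum.inl l)) (fun v => if v = 0 then 1 else 0) =
      kpaL φ (insert l S) := by
  funext ξ
  by_cases h : ξ = some (Sum.inl l)
  · subst h
    rw [Function.update_self]
    show _ = if l ∈ insert l S then (fun v => if v = 0 then (1 : ℂ) else 0)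
      else φ (some (Sum.inl l))
    rw [if_pos (Finset.mem_insert_self l S)]
  · rw [Function.update_of_ne h]
    rcases ξ with _ | l' | i
    · rfl
    · have hne : l' ≠ l := fun e => h (by rw [e])
      show (if l' ∈ S then (fun v => if v = 0 then (1 : ℂ) else 0) else φ (some (Sum.inl l'))) =
        if l' ∈ insert l S then (fun v => if v = 0 then (1 : ℂ) else 0)
          else φ (some (Sum.inl l'))
      by_cases h' : l' ∈ S
      · rw [if_pos h', if_pos (Finset.mem_insert_of_mem h')]
      · rw [if_neg h', if_neg]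
        intro h2
        rcases Finset.mem_insert.1 h2 with h3 | h3
        · exact hne h3
        · exact h' h3
    · rfl

open Classical in
theorem kpaI_insert (φ : Co σ I → ℤ → ℂ) (c : I → ℂ) (S : Finset I) (i : I) (hi : i ∉ S) :
    Function.update (kpaI φ c S) (some (Sum.inr i)) (fun v =>
      kpaI φ c S (some (Sum.inr i)) v - c i * kpaI φ c S (some (Sum.inr i)) (v - 1)) =
      kpaI φ c (insert i S) := by
  have hφ : kpaI φ c S (some (Sum.inr i)) = φ (some (Sum.inr i)) := by
    show (if i ∈ S then (fun v => φ (some (Sum.inr i)) v - c i * φ (some (Sum.inr i)) (v - 1))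
      else φ (some (Sum.inr i))) = _
    rw [if_neg hi]
  rw [hφ]
  funext ξ
  by_cases h : ξ = some (Sum.inr i)
  · subst h
    rw [Function.update_self]
    show _ = if i ∈ insert i S then
      (fun v => φ (some (Sum.inr i)) v - c i * φ (some (Sum.inr i)) (v - 1))
      else φ (some (Sum.inr i))
    rw [if_pos (Finset.mem_insert_self i S)]
  · rw [Function.update_of_ne h]
    rcases ξ with _ | l' | i'
    · rfl
    · rfl
    · have hne : i' ≠ i := fun e => h (by rw [e])
      show (if i' ∈ S then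
          (fun v => φ (some (Sum.inr i')) v - c i' * φ (some (Sum.inr i')) (v - 1))
          else φ (some (Sum.inr i'))) =
        if i' ∈ insert i S then
          (fun v => φ (some (Sum.inr i')) v - c i' * φ (some (Sum.inr i')) (v - 1))
          else φ (some (Sum.inr i'))
      by_cases h' : i' ∈ S
      · rw [if_pos h', if_pos (Finset.mem_insert_of_mem h')]
      · rw [if_neg h', if_neg]
        intro h2
        rcases Finset.mem_insert.1 h2 with h3 | h3
        · exact hne h3
        · exact h' h3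

variable [Fintype σ] [Fintype I]

theorem kpaL_mul (hRlb : SRlb) (a : I → σ → ℕ) (X : ℂ) (hX : X ≠ 0) (S : Finset σ)
    (φ : Co σ I → ℤ → ℂ) (hφ : OKs a X φ)
    (h1 : ∀ l ∈ S, φ (some (Sum.inl l)) = fun v => if 0 ≤ v then 1 else 0) :
    OKs a X (kpaL φ S) ∧ ∀ h : GR I,
      Lc a X φ ((∏ l ∈ S, (1 - AddMonoidAlgebra.single (fun i => -(a i l : ℤ)) X)) * h) =
        Lc a X (kpaL φ S) h := by
  classical
  induction S using Finset.induction_on with
  | empty =>
    rw [kpaL_empty]
    exact ⟨hφ, fun h => by rw [Finset.prod_empty, one_mul]⟩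
  | insert l S hl ih =>
    obtain ⟨hok, hmul⟩ := ih fun l' hl' => h1 l' (Finset.mem_insert_of_mem hl')
    have hfac : kpaL φ S (some (Sum.inl l)) = fun v => if 0 ≤ v then 1 else 0 := by
      show (if l ∈ S then (fun v => if v = 0 then (1 : ℂ) else 0) else φ (some (Sum.inl l))) = _
      rw [if_neg hl]
      exact h1 l (Finset.mem_insert_self l S)
    obtain ⟨hok', hmul'⟩ := hRlb σ I a X hX (kpaL φ S) hok l hfac
    have hins := kpaL_insert φ S l
    rw [hins] at hok'
    refine ⟨hok', fun h => ?_⟩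
    have hm := hmul' h
    rw [hins] at hm
    rw [← hm, ← hmul, Finset.prod_insert hl]
    congr 1
    ring

open Classical in
theorem kpaI_mul (hRla : SRla) (a : I → σ → ℕ) (X : ℂ) (c : I → ℂ) (S : Finset I)
    (φ : Co σ I → ℤ → ℂ) (hφ : OKs a X φ) :
    OKs a X (kpaI φ c S) ∧ ∀ h : GR I,
      Lc a X φ ((∏ i ∈ S, (1 - AddMonoidAlgebra.single (Pi.single i 1) (c i))) * h) =
        Lc a X (kpaI φ c S) h := by
  induction S using Finset.induction_on with
  | empty =>
    rw [kpaI_empty]
    exact ⟨hφ, fun h => by rw [Finset.prod_empty, one_mul]⟩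
  | insert i S hi ih =>
    obtain ⟨hok, hmul⟩ := ih
    obtain ⟨hok', hmul'⟩ := hRla σ I a X (kpaI φ c S) hok i (c i)
    have hins := kpaI_insert φ c S i hi
    rw [hins] at hok'
    refine ⟨hok', fun h => ?_⟩
    have hm := hmul' h
    rw [hins] at hm
    rw [← hm, ← hmul, Finset.prod_insert hi]
    congr 1
    ring

open Classical in
/-- the real version of the shifted factors `phz P` -/
noncomputable def kpaR (P : Finset I) (m : I → ℤ) : Co σ I → ℤ → ℝ
  | none => fun v => if 1 ≤ v then 1 else 0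
  | some (Sum.inl _) => fun v => if 0 ≤ v then 1 else 0
  | some (Sum.inr i) => fun v =>
      if i ∈ P then (if v - m i = 0 then 1 else 0) else if 0 ≤ v - m i then 1 else 0

omit [Fintype σ] [Fintype I] in
theorem kpa_shf (P : Finset I) (m : I → ℤ) (ξ : Co σ I) (v : ℤ) :
    shf (phz P) m ξ v = ((kpaR P m ξ v : ℝ) : ℂ) := by
  classical
  rcases ξ with _ | l | i
  · show (if 1 ≤ v then (1 : ℂ) else 0) = (((if 1 ≤ v then 1 else 0 : ℝ)) : ℂ)
    split_ifs <;> simp
  · show (if 0 ≤ v then (1 : ℂ) else 0) = (((if 0 ≤ v then 1 else 0 : ℝ)) : ℂ)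
    split_ifs <;> simp
  · show (if i ∈ P then (if v - m i = 0 then (1 : ℂ) else 0) else if 0 ≤ v - m i then 1 else 0) =
      (((if i ∈ P then (if v - m i = 0 then 1 else 0) else if 0 ≤ v - m i then 1 else 0 : ℝ)) : ℂ)
    split_ifs <;> simp

omit [Fintype σ] in
theorem kpa_thr (P : Finset I) (m : I → ℤ) (ξ : Co σ I) :
    Thr ((∑ i, (m i).natAbs) + 1) (kpaR P m ξ) := by
  classical
  have hm : ∀ i, (m i).natAbs ≤ ∑ i, (m i).natAbs := fun i =>
    Finset.single_le_sum (f := fun i => (m i).natAbs) (fun _ _ => Nat.zero_le _)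
      (Finset.mem_univ i)
  set c : ℕ := (∑ i, (m i).natAbs) + 1 with hc
  rcases ξ with _ | l | i
  · refine ⟨fun v hv => ?_, fun v hv => ?_⟩
    · show (if 1 ≤ v then (1 : ℝ) else 0) = 0
      rw [if_neg (by omega)]
    · show (if 1 ≤ v then (1 : ℝ) else 0) = if 1 ≤ (c : ℤ) then (1 : ℝ) else 0
      rw [if_pos (by omega), if_pos (by omega)]
  · refine ⟨fun v hv => ?_, fun v hv => ?_⟩
    · show (if 0 ≤ v then (1 : ℝ) else 0) = 0
      rw [if_neg (by omega)]
    · show (if 0 ≤ v then (1 : ℝ) else 0) = if 0 ≤ (c : ℤ) then (1 : ℝ) else 0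
      rw [if_pos (by omega), if_pos (by omega)]
  · have h1 := hm i
    have h2 : ((m i).natAbs : ℤ) + 1 ≤ (c : ℤ) := by
      rw [hc]
      push_cast
      have : ((m i).natAbs : ℤ) ≤ ∑ i, ((m i).natAbs : ℤ) := by exact_mod_cast h1
      linarith
    have h3 : m i ≤ ((m i).natAbs : ℤ) := Int.le_natAbs
    have h4 : -m i ≤ ((m i).natAbs : ℤ) := by
      have := @Int.le_natAbs (-m i)
      rwa [Int.natAbs_neg] at this
    refine ⟨fun v hv => ?_, fun v hv => ?_⟩
    · show (if i ∈ P then (if v - m i = 0 then (1 : ℝ) else 0) else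
        if 0 ≤ v - m i then 1 else 0) = 0
      rw [if_neg (show ¬ v - m i = 0 by omega), if_neg (show ¬ 0 ≤ v - m i by omega)]
      split_ifs <;> rfl
    · show (if i ∈ P then (if v - m i = 0 then (1 : ℝ) else 0) else
          if 0 ≤ v - m i then 1 else 0) =
        (if i ∈ P then (if (c : ℤ) - m i = 0 then (1 : ℝ) else 0) else
          if 0 ≤ (c : ℤ) - m i then 1 else 0)
      rw [if_neg (show ¬ v - m i = 0 by omega), if_pos (show 0 ≤ v - m i by omega),
        if_neg (show ¬ (c : ℤ) - m i = 0 by omega), if_pos (show 0 ≤ (c : ℤ) - m i by omega)]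

theorem kpa_ok (hSum : SSum) (a : I → σ → ℕ) (P : Finset I) (x : ℝ) (hx : 1 < x) :
    OKs a ((x : ℂ)⁻¹) (phz P) := by
  intro m N
  have hx0 : 0 < x := zero_lt_one.trans hx
  have h := hSum σ I a x⁻¹ (inv_pos.2 hx0) (inv_lt_one_of_one_lt₀ hx) _ (kpaR P m)
    (kpa_thr P m) N
  have h2 := (Complex.ofRealCLM.summable h)
  refine h2.congr fun u => ?_
  show (((∏ ξ, kpaR P m ξ (lam a u N ξ)) * x⁻¹ ^ (∑ l, u l) : ℝ) : ℂ) = _
  push_cast
  congr 1
  exact Finset.prod_congr rfl fun ξ _ => (kpa_shf P m ξ _).symm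


open Classical in
/-- both sides have the same factors -/
theorem kpa_factors (P : Finset I) (p : I → ℂˣ) (Wf : Finset σ) (Z E : Finset I)
    (hZP : Disjoint Z P) (hZE : Disjoint Z E) :
    kpaI (kpaL (phz P) Wfᶜ) (fun _ => 1) (P ∪ Z)ᶜ =
      kpaI (phe p Wf Z E) (fun i => (p i : ℂ)⁻¹) E := by
  funext ξ
  rcases ξ with _ | l | i
  · rfl
  · show (if l ∈ Wfᶜ then (fun v => if v = 0 then (1 : ℂ) else 0) else
        (fun v : ℤ => if 0 ≤ v then (1 : ℂ) else 0)) =
      fun v : ℤ => if l ∈ Wf then (if 0 ≤ v then (1 : ℂ) else 0) else if v = 0 then 1 else 0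
    by_cases hl : l ∈ Wf
    · rw [if_neg (by simp [hl])]
      funext v
      rw [if_pos hl]
    · rw [if_pos (by simp [hl])]
      funext v
      rw [if_neg hl]
  · show (if i ∈ (P ∪ Z)ᶜ then
        (fun v : ℤ => (if i ∈ P then (if v = 0 then (1 : ℂ) else 0) else if 0 ≤ v then 1 else 0) -
          1 * (if i ∈ P then (if v - 1 = 0 then (1 : ℂ) else 0) else if 0 ≤ v - 1 then 1 else 0))
        else (fun v : ℤ => if i ∈ P then (if v = 0 then (1 : ℂ) else 0) else
          if 0 ≤ v then 1 else 0)) =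
      if i ∈ E then
        (fun v : ℤ => (if i ∈ Z then (if 0 ≤ v then (1 : ℂ) else 0)
            else if i ∈ E then (if 0 ≤ v then ((p i ^ (-v) : ℂˣ) : ℂ) else 0)
            else if v = 0 then 1 else 0) -
          (p i : ℂ)⁻¹ * (if i ∈ Z then (if 0 ≤ v - 1 then (1 : ℂ) else 0)
            else if i ∈ E then (if 0 ≤ v - 1 then ((p i ^ (-(v - 1)) : ℂˣ) : ℂ) else 0)
            else if v - 1 = 0 then 1 else 0))
        else (fun v : ℤ => if i ∈ Z then (if 0 ≤ v then (1 : ℂ) else 0)
            else if i ∈ E then (if 0 ≤ v then ((p i ^ (-v) : ℂˣ) : ℂ) else 0)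
            else if v = 0 then 1 else 0)
    by_cases hZ : i ∈ Z
    · have hP : i ∉ P := Finset.disjoint_left.1 hZP hZ
      have hE : i ∉ E := Finset.disjoint_left.1 hZE hZ
      rw [if_neg (by simp [hZ]), if_neg hE]
      funext v
      rw [if_neg hP, if_pos hZ]
    · have hR : (if i ∈ E then
        (fun v : ℤ => (if i ∈ Z then (if 0 ≤ v then (1 : ℂ) else 0)
            else if i ∈ E then (if 0 ≤ v then ((p i ^ (-v) : ℂˣ) : ℂ) else 0)
            else if v = 0 then 1 else 0) -
          (p i : ℂ)⁻¹ * (if i ∈ Z then (if 0 ≤ v - 1 then (1 : ℂ) else 0)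
            else if i ∈ E then (if 0 ≤ v - 1 then ((p i ^ (-(v - 1)) : ℂˣ) : ℂ) else 0)
            else if v - 1 = 0 then 1 else 0))
        else (fun v : ℤ => if i ∈ Z then (if 0 ≤ v then (1 : ℂ) else 0)
            else if i ∈ E then (if 0 ≤ v then ((p i ^ (-v) : ℂˣ) : ℂ) else 0)
            else if v = 0 then 1 else 0)) = fun v : ℤ => if v = 0 then (1 : ℂ) else 0 := by
        by_cases hE : i ∈ E
        · rw [if_pos hE]
          funext v
          rw [if_neg hZ, if_neg hZ, if_pos hE, if_pos hE]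
          rcases lt_trichotomy v 0 with h | h | h
          · rw [if_neg (by omega), if_neg (by omega), if_neg (by omega), mul_zero, sub_zero]
          · subst h
            simp
          · rw [if_pos (by omega), if_pos (by omega), if_neg (by omega)]
            have e : ((p i ^ (-v) : ℂˣ) : ℂ) = (p i : ℂ)⁻¹ * ((p i ^ (-(v - 1)) : ℂˣ) : ℂ) := by
              rw [← Units.val_inv_eq_inv_val, ← Units.val_mul]
              congr 1
              rw [← zpow_neg_one, ← zpow_add]
              congr 1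
              ring
            rw [e, sub_self]
        · rw [if_neg hE]
          funext v
          rw [if_neg hZ, if_neg hE]
      rw [hR]
      by_cases hP : i ∈ P
      · rw [if_neg (by simp [hP])]
        funext v
        rw [if_pos hP]
      · rw [if_pos (by simp [hP, hZ])]
        funext v
        rw [if_neg hP, if_neg hP, one_mul]
        rcases lt_trichotomy v 0 with h | h | h
        · rw [if_neg (by omega), if_neg (by omega), if_neg (by omega), sub_zero]
        · subst h
          simp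
        · rw [if_pos (by omega), if_pos (by omega), if_neg (by omega), sub_self]

end KPA

/-- KPA -/
theorem sKpa (hRla : SRla) (hRlb : SRlb) (hFsm : SFsm) (hSum : SSum) : SKpa := by
  classical
  intro σ I _ _ a P x hx p Wf Z E hZP hZE _ hb g
  have hx0 : (x : ℂ)⁻¹ ≠ 0 := by
    have : (x : ℂ) ≠ 0 := by
      rw [Ne, Complex.ofReal_eq_zero]
      linarith
    exact inv_ne_zero this
  have hok := kpa_ok hSum a P x hx
  obtain ⟨hok1, hm1⟩ := kpaL_mul hRlb a ((x : ℂ)⁻¹) hx0 Wfᶜ (phz P) hok fun l _ => rfl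
  obtain ⟨_, hm2⟩ := kpaI_mul hRla a ((x : ℂ)⁻¹) (fun _ => 1) (P ∪ Z)ᶜ _ hok1
  have hokE : OKs a ((x : ℂ)⁻¹) (phe p Wf Z E) := by
    refine hFsm σ I a _ Wf (Z ∪ E)ᶜ ?_ (phe p Wf Z E) ?_ ?_
    · intro l hl
      obtain ⟨i, h1, h2, h3⟩ := hb l hl
      refine ⟨i, ?_, h3⟩
      rw [Finset.mem_compl, Finset.mem_union, not_or]
      exact ⟨h1, h2⟩
    · intro l v hv
      show (if l ∈ Wf then (if 0 ≤ v then (1 : ℂ) else 0) else if v = 0 then 1 else 0) = 0
      rcases hv with hv | ⟨hl, hv⟩
      · rw [if_neg (show ¬ 0 ≤ v by omega), if_neg (show ¬ v = 0 by omega)]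
        split_ifs <;> rfl
      · rw [if_neg hl, if_neg hv]
    · intro i hi
      refine ⟨0, fun v hv => ?_⟩
      rw [Finset.mem_compl, Finset.mem_union, not_or] at hi
      show (if i ∈ Z then (if 0 ≤ v then (1 : ℂ) else 0)
        else if i ∈ E then (if 0 ≤ v then ((p i ^ (-v) : ℂˣ) : ℂ) else 0)
        else if v = 0 then 1 else 0) = 0
      rw [if_neg hi.1, if_neg hi.2, if_neg]
      intro h
      rw [h] at hv
      simp at hv
  obtain ⟨_, hm3⟩ := kpaI_mul hRla a ((x : ℂ)⁻¹) (fun i => (p i : ℂ)⁻¹) E _ hokE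
  have e1 : (∏ l ∈ Wfᶜ, (1 - AddMonoidAlgebra.single (fun i => -(a i l : ℤ)) ((x : ℂ)⁻¹))) *
      (∏ i ∈ (P ∪ Z)ᶜ, (1 - AddMonoidAlgebra.single (Pi.single i 1) 1)) * g =
      (∏ l ∈ Wfᶜ, (1 - AddMonoidAlgebra.single (fun i => -(a i l : ℤ)) ((x : ℂ)⁻¹))) *
      ((∏ i ∈ (P ∪ Z)ᶜ, (1 - AddMonoidAlgebra.single (Pi.single i 1) 1)) * g) := by
    rw [mul_assoc]
  rw [e1, hm1, hm3, hm2]
  rw [kpa_factors P p Wf Z E hZP hZE]

end Pool.Newt3
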